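import Pool.Agent.V1143.Ord.Real

/-!
# Ordinary primes for intersection cohomology: explicit densities, and a bound for the excess

`K₀` is a number field and `X` a projective variety over `K₀`; `R ℓ'` is `IH ^ n (X ⊗ K̄₀, ℚ_ℓ')`, for
all primes `ℓ'` (a strictly compatible system), with the integral Frobenius polynomials `F v₀`. Over a
finite extension `K` of `K₀` the system is a direct sum of `m i` copies of pieces `A i` with
multiplication by totally real or CM fields `(A i).E`, with connected `ℓ`-adic monodromy groups over `K`
for one prime `ℓ`.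

Theorem.

1. (No orbit condition.) At a set of places `v` of `K` of density one the following holds for all `A i`
   whose Hodge polygon has a vertex, all `0 < k < n i` and all maximal ideals `Q` above `v` of the ring
   of all algebraic integers: if the coefficient of index `n - k` of the `σ`-part of the Frobenius
   polynomial is divisible at `Q` by `p ^ (hp σ k + e σ)` for all embeddings `σ`, then
   `2 * Σ e σ < defect k = Σ (w k - 2 hp σ k)`. (So the sum over all `σ` of the Newton polygons of the
   `σ`-parts at `k` is smaller than `w k d / 2`.)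
2. The lower density of the places of `K` above ordinary places is at least the proportion `admProportion A`
   of the elements of the finite Galois group of the fields of multiplications which satisfy the orbit
   condition, and the lower density of the ordinary places of `K₀` is at least
   `admProportion A / [K : K₀]`.
3. If the defects at all vertices are at most `2`, the places of `K` above ordinary places have density
   one, and the lower density of the ordinary places of `K₀` is at least `1 / [K : K₀]`.

At an ordinary place the Newton polygons of `R ℓ'` are the Hodge polygon for all `ℓ'` different from the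
residue characteristic `p` and all embeddings of the algebraic numbers into `ℚ̄_p`.
-/

set_option autoImplicit false

namespace Pool.Agent.Results.MP_db07cb_ag.ExplicitDensity

open NumberField IsDedekindDomain Polynomial Filter Topology
open Pool.Agent.W401.Cheb Pool.Agent.W528.Ord Pool.Agent.V1143.Ord
open Pool.Agent.W528.Ord.MultSystem (IsDeg1)

theorem result (K₀ K : Type) [Field K₀] [NumberField K₀] [Field K] [NumberField K] [Algebra K₀ K]
    (ℓ : ℕ) [Fact ℓ.Prime] {ι : Type} [Fintype ι]
    -- the pieces `A i` over `K`, and their multiplicities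
    (A : ι → MotSystem K ℓ) (m : ι → ℕ)
    (χ : GK K →* (PadicAlgCl ℓ)ˣ) (S : Finset ℕ) (hA : ∀ i, (A i).IsMotive χ S)
    -- the realisations over `K₀`
    {r : ℕ} (R : ∀ (ℓ' : ℕ) [Fact ℓ'.Prime], GK K₀ →* Matrix.GeneralLinearGroup (Fin r) ℚ_[ℓ'])
    (F : HeightOneSpectrum (𝓞 K₀) → ℤ[X]) (hR : StrictlyCompatible S R F)
    (hF : Decomposes A m S F) :
    -- 1. the total excess is smaller than half the defect, at a set of places of `K` of density one
    Tendsto (ratio fun v : HeightOneSpectrum (𝓞 K) => IsDeg1 S v ∧
      ∀ i, (∃ (σ : (A i).E →+* AlgebraicClosure K) (k : ℕ), (A i).Vertex σ k) →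
        SmallExcess (A i) v) atTop (𝓝 1) ∧
    -- 2. explicit lower densities
    (MotSystem.admProportion A ≤ lowerDensity fun v : HeightOneSpectrum (𝓞 K) =>
      ∃ v₀ : HeightOneSpectrum (𝓞 K₀), v.asIdeal.comap (algebraMap (𝓞 K₀) (𝓞 K)) = v₀.asIdeal ∧
        Ordinary R (MotSystem.slopes A m) v₀) ∧
    MotSystem.admProportion A / (Module.finrank K₀ K : ℝ) ≤
      lowerDensity (Ordinary R (MotSystem.slopes A m)) ∧
    -- 3. defects at most two
    ((∀ i (σ : (A i).E →+* AlgebraicClosure K) (k : ℕ), (A i).Vertex σ k → (A i).defect k ≤ 2) →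
      Tendsto (ratio fun v : HeightOneSpectrum (𝓞 K) => ∃ v₀ : HeightOneSpectrum (𝓞 K₀),
        v.asIdeal.comap (algebraMap (𝓞 K₀) (𝓞 K)) = v₀.asIdeal ∧
        Ordinary R (MotSystem.slopes A m) v₀) atTop (𝓝 1) ∧
      1 / (Module.finrank K₀ K : ℝ) ≤ lowerDensity (Ordinary R (MotSystem.slopes A m))) := by
  have key : ∀ v : HeightOneSpectrum (𝓞 K), AdmPlace A S v →
      ∃ v₀ : HeightOneSpectrum (𝓞 K₀), v.asIdeal.comap (algebraMap (𝓞 K₀) (𝓞 K)) = v₀.asIdeal ∧
        Ordinary R (MotSystem.slopes A m) v₀ := by
    intro v hv
    obtain ⟨v₀, h0, -⟩ := exists_under (K₀ := K₀) v hv.1.1.1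
    exact ⟨v₀, h0, ordinary_under χ hA hv h0 m R F hR hF⟩
  have hdown : MotSystem.admProportion A / (Module.finrank K₀ K : ℝ) ≤
      lowerDensity (Ordinary R (MotSystem.slopes A m)) :=
    lower_down χ hA _ (fun v v₀ hv h0 => ordinary_under χ hA hv h0 m R F hR hF)
  refine ⟨good_ratio χ hA, lower_up χ hA _ key, hdown, fun hdef => ⟨ratio_up χ hA hdef _ key, ?_⟩⟩
  rw [prop_one (K := K) hdef] at hdown
  exact hdown

end Pool.Agent.Results.MP_db07cb_ag.ExplicitDensity
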